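import Pool.Agent.helper22.GS.Spec

/-!
# Project gs (MP_561ff4_al), module DS1
-/

set_option autoImplicit false

namespace Pool.Agent.GS

open Module

noncomputable section

theorem DS1 : DS1_stmt := by
  intro F _ _ ψ l hl hne hψ κ hκ hψκ
  classical
  let g : RingAut F := ψ
  have hpow : ∀ (n : ℕ) (x : F), (g ^ n : RingAut F) x = (⇑ψ)^[n] x := by
    intro n
    induction n with
    | zero => intro x; rfl
    | succ m ih =>
      intro x
      rw [pow_succ', Function.iterate_succ_apply', ← ih x]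
      rfl
  have hg : g ^ l = 1 := by
    apply RingEquiv.ext
    intro x
    rw [hpow]
    exact hψ x
  have hg1 : g ≠ 1 := by
    intro h
    obtain ⟨x, hx⟩ := hne
    apply hx
    exact congrArg (fun s : RingAut F => s x) h
  have hfact : Fact l.Prime := ⟨hl⟩
  have hord : orderOf g = l := orderOf_eq_prime hg hg1
  have hfin : IsOfFinOrder g := by
    rw [← orderOf_pos_iff, hord]
    exact hl.pos
  let G : Subgroup (RingAut F) := Subgroup.zpowers g
  have hGfin : Finite G := Finite.of_equiv _ (finEquivZPowers hfin)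
  have hGft : Fintype G := Fintype.ofFinite G
  let K := FixedPoints.subfield G F
  have hκK : κ ∈ K := by
    rintro ⟨m, n, rfl⟩
    have h1 : (g : RingAut F) • κ = κ := hψκ
    have h2 : g ∈ MulAction.stabilizer (RingAut F) κ := h1
    have h3 := (MulAction.stabilizer (RingAut F) κ).zpow_mem h2 n
    exact h3
  have hκ0 : (⟨κ, hκK⟩ : K) ≠ 0 := by
    intro h
    exact hκ (congrArg Subtype.val h)
  obtain ⟨x, hx⟩ := FiniteField.norm_surjective (K := K) (K' := F) (⟨κ, hκK⟩ : K)⁻¹
  have hx0 : x ≠ 0 := by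
    rintro rfl
    rw [Algebra.norm_zero] at hx
    exact (inv_ne_zero hκ0) hx.symm
  refine ⟨x, hx0, ?_⟩
  have h1 : algebraMap K F (Algebra.norm K x) = ∏ σ : F ≃ₐ[K] F, σ x :=
    Algebra.norm_eq_prod_automorphisms K x
  have h2 : ∏ σ : F ≃ₐ[K] F, σ x = ∏ s : G, (s : RingAut F) x := by
    rw [← (FixedPoints.toAlgAutMulEquiv G F).toEquiv.prod_comp (fun σ : F ≃ₐ[K] F => σ x)]
    rfl
  have h3 : ∏ s : G, (s : RingAut F) x = ∏ i : Fin (orderOf g), (g ^ (i : ℕ) : RingAut F) x := by
    rw [← (finEquivZPowers hfin).prod_comp (fun s : G => (s : RingAut F) x)]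
    rfl
  have h4 : ∏ i : Fin (orderOf g), (g ^ (i : ℕ) : RingAut F) x =
      ∏ i ∈ Finset.range l, (⇑ψ)^[i] x := by
    rw [Finset.prod_congr rfl (fun (i : Fin (orderOf g)) _ => hpow (i : ℕ) x),
      Fin.prod_univ_eq_prod_range (fun i => (⇑ψ)^[i] x) (orderOf g), hord]
  rw [← h4, ← h3, ← h2, ← h1, hx, map_inv₀]
  exact mul_inv_cancel₀ hκ

end

end Pool.Agent.GS

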