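import Pool.Agent.helper22.GS.Spec

/-!
# Project gs (MP_561ff4_al), module DS2
-/

set_option autoImplicit false

namespace Pool.Agent.GS

open Module

noncomputable section

theorem DS2_fix {F V : Type} [Field F] [AddCommGroup V] [Module F V]
    (ψ : F ≃+* F) (l : ℕ) (hψ : ∀ x, (⇑ψ)^[l] x = x)
    (y : Equiv.Perm V) (ha : ∀ u v, y (u + v) = y u + y v)
    (hs : ∀ (c : F) v, y (c • v) = ψ c • y v) (hy : ∀ v, (y ^ l) v = v) (c : F) (v : V) :
    y (∑ i ∈ Finset.range l, (⇑ψ)^[i] c • (y ^ i) v) =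
      ∑ i ∈ Finset.range l, (⇑ψ)^[i] c • (y ^ i) v := by
  let Y : V →+ V := AddMonoidHom.mk' y ha
  have h1 : y (∑ i ∈ Finset.range l, (⇑ψ)^[i] c • (y ^ i) v) =
      ∑ i ∈ Finset.range l, (⇑ψ)^[i + 1] c • (y ^ (i + 1)) v := by
    have h2 := map_sum Y (fun i => (⇑ψ)^[i] c • (y ^ i) v) (Finset.range l)
    change y (∑ i ∈ Finset.range l, (⇑ψ)^[i] c • (y ^ i) v) =
      ∑ i ∈ Finset.range l, y ((⇑ψ)^[i] c • (y ^ i) v) at h2
    rw [h2]
    refine Finset.sum_congr rfl ?_
    intro i _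
    rw [hs, Function.iterate_succ_apply', pow_succ' y i, Equiv.Perm.mul_apply]
  rw [h1]
  have h3 := Finset.sum_range_succ (fun i => (⇑ψ)^[i] c • (y ^ i) v) l
  have h4 := Finset.sum_range_succ' (fun i => (⇑ψ)^[i] c • (y ^ i) v) l
  rw [h3] at h4
  have h5 : (⇑ψ)^[l] c • (y ^ l) v = (⇑ψ)^[0] c • (y ^ 0) v := by
    rw [hψ, hy]
    rfl
  rw [h5] at h4
  exact (add_right_cancel h4).symm

theorem DS2 : DS2_stmt := by
  intro F V _ _ _ ψ l hl hne hψ y ha hs hy
  by_contra hcon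
  obtain ⟨φ, hφ0, hφ⟩ := Submodule.exists_le_ker_of_lt_top
    (Submodule.span F {u | y u = u}) (lt_top_iff_ne_top.mpr hcon)
  obtain ⟨v, hv⟩ : ∃ v, φ v ≠ 0 := by
    by_contra h
    push Not at h
    exact hφ0 (LinearMap.ext h)
  let r : F →+* F := ψ
  have hr : r ^ l = 1 := by
    apply RingHom.ext
    intro x
    rw [RingHom.coe_pow]
    exact hψ x
  have hr1 : r ≠ 1 := by
    intro h
    obtain ⟨x, hx⟩ := hne
    apply hx
    exact RingHom.congr_fun h x
  have hfact : Fact l.Prime := ⟨hl⟩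
  have hord : orderOf r = l := orderOf_eq_prime hr hr1
  let χ : Fin l → (F →* F) := fun i => ((r ^ (i : ℕ) : F →+* F) : F →* F)
  have hinj : Function.Injective χ := by
    intro i j hij
    have h1 : r ^ (i : ℕ) = r ^ (j : ℕ) := by
      apply RingHom.ext
      intro x
      exact DFunLike.congr_fun hij x
    have h2 := pow_injOn_Iio_orderOf (x := r) (by rw [hord]; exact i.2) (by rw [hord]; exact j.2) h1
    exact Fin.ext h2
  have hli := (linearIndependent_monoidHom F F).comp χ hinj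
  rw [Fintype.linearIndependent_iff] at hli
  have h0 := hli (fun i => φ ((y ^ (i : ℕ)) v)) (by
    funext c
    rw [Finset.sum_apply]
    have h1 : φ (∑ i ∈ Finset.range l, (⇑ψ)^[i] c • (y ^ i) v) = 0 := by
      have h2 : (∑ i ∈ Finset.range l, (⇑ψ)^[i] c • (y ^ i) v) ∈
          Submodule.span F {u | y u = u} :=
        Submodule.subset_span (DS2_fix ψ l hψ y ha hs hy c v)
      exact hφ h2
    rw [map_sum, Finset.sum_range] at h1
    rw [Pi.zero_apply, ← h1]
    refine Finset.sum_congr rfl ?_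
    intro i _
    have h3 : (χ i) c = (⇑ψ)^[(i : ℕ)] c := by
      change (r ^ (i : ℕ)) c = _
      rw [RingHom.coe_pow]
      rfl
    rw [Pi.smul_apply, smul_eq_mul, map_smul, smul_eq_mul, mul_comm]
    congr 1) ⟨0, hl.pos⟩
  exact hv h0

end

end Pool.Agent.GS

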